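import Pool.Agent.H30.KL.Classes

/-!
# Standard-graded homogeneity of Kazhdan–Lusztig ideals: all partners, and a Bruhat obstruction

(1) `I_{u,v}` is homogeneous for every `v` iff `u` avoids `123`.
(2) `I_{u,v}` is homogeneous for every `u` iff `v` avoids `312`.
(3) If `I_{u,v}` is homogeneous, then for every `123` pattern `a < k < c` of `u`: if the permutation
obtained from `u` by replacing the values `u(a), u(k), u(c)` at these positions by
`u(c), u(a), u(k)` is `≤ v` in Bruhat order, then so is the one obtained by replacing them by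
`u(c), u(k), u(a)`.
-/

namespace Pool.Agent.Results.MP_a7460d_ag.AllPartners

open Pool.Agent.H30.KL

theorem result {n : ℕ} :
    (∀ u : Equiv.Perm (Fin n), (∀ v, Hom u v) ↔
      ¬ ∃ a k c : Fin n, a < k ∧ k < c ∧ u a < u k ∧ u k < u c) ∧
    (∀ v : Equiv.Perm (Fin n), (∀ u, Hom u v) ↔
      ¬ ∃ a k c : Fin n, a < k ∧ k < c ∧ v k < v c ∧ v c < v a) ∧
    (∀ u v : Equiv.Perm (Fin n), Hom u v → ∀ a k c : Fin n, a < k → k < c → u a < u k →
      u k < u c → BruhatLE (u * (Equiv.swap k c * Equiv.swap a k)) v →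
      BruhatLE (u * Equiv.swap a c) v) :=
  ⟨forall_v_iff, forall_u_iff, fun _ _ h _ _ _ h12 h23 g12 g23 hw =>
    obstruction h h12 h23 g12 g23 hw⟩

end Pool.Agent.Results.MP_a7460d_ag.AllPartners
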