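import Pool.Agent.H30.KL.Gen.SuffC
import Pool.Agent.H44.KL.UnifMain

/-!
# Standard-graded homogeneity of Kazhdan–Lusztig ideals: the classification

Vertices are the positions `a` of `u`, with value `u a`; a box is a pair `(i,j)` (rows `≥ i`, columns `≤ j`).  `I_{u,v}` is homogeneous if and only if `u ≤ v`
fails or, for every box and every irreducible pair `(C,R)` of this box, all the linkings from `C` to `R` have the same number of steps.  Both directions are
proved: `suff_unif` and `nec_unif`.
-/

namespace Pool.Agent.Results.MP_a7460d_ag.Classification

open Pool.Agent.H30.KL

theorem result {n : ℕ} (u v : Equiv.Perm (Fin n)) : Hom u v ↔ (BruhatLE u v → Unif u v) := by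
  constructor
  · intro h huv
    exact Pool.Agent.H44.KL.nec_unif huv h
  · intro h
    by_cases huv : BruhatLE u v
    · exact suff_unif (h huv)
    · exact hom_of_not_le huv

end Pool.Agent.Results.MP_a7460d_ag.Classification
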