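import Pool.Agent.H30.KL.Cov.Main

/-!
# Standard-graded homogeneity of Kazhdan–Lusztig ideals: the covexillary case

(1) If `v` avoids `3412`, then for every `u` the ideal `I_{u,v}` is homogeneous iff there is no
`123` pattern `c < k < r` of `u` through a box `(i,j)` of the essential set of `v`
(`k ≤ j < r`, `u(c) < i ≤ u(k)`) with `u t_{ck} ≤ v` and `u t_{kr} ≤ v`.
(2) For all `u`, `v`: if no essential box of `v` has a chain `c < k_1 < ... < k_m < r` through it
with all steps `≤ v`, then `I_{u,v}` is homogeneous.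
(3) A Bruhat obstruction for all `u`, `v`.
-/

namespace Pool.Agent.Results.MP_a7460d_ag.Covexillary

open Pool.Agent.H30.KL

theorem result {n : ℕ} :
    (∀ v : Equiv.Perm (Fin n),
      (¬ ∃ a b c d : Fin n, a < b ∧ b < c ∧ c < d ∧ v c < v d ∧ v d < v a ∧ v a < v b) →
      ∀ u : Equiv.Perm (Fin n), Hom u v ↔
        ¬ ∃ i j c k r : Fin n, Ess v i j ∧ c < k ∧ k ≤ j ∧ j < r ∧ u c < i ∧ i ≤ u k ∧ u k < u r ∧
          BruhatLE (u * Equiv.swap c k) v ∧ BruhatLE (u * Equiv.swap k r) v) ∧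
    (∀ u v : Equiv.Perm (Fin n),
      (∀ i j, Ess v i j → ¬ ∃ c k r, Reach u v i j c k ∧ j < r ∧ u k < u r ∧
        BruhatLE (u * Equiv.swap k r) v) → Hom u v) ∧
    (∀ u v τ : Equiv.Perm (Fin n), Hom u v → (∀ x, τ (τ x) = x) →
      (∀ x, x < τ x → u x < u (τ x)) → ∀ a k c : Fin n, a < k → k < c → u a < u k → u k < u c →
      τ a = a → τ k = k → τ c = c →
      BruhatLE (u * τ * (Equiv.swap k c * Equiv.swap a k)) v →
      BruhatLE (u * τ * Equiv.swap a c) v) := by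
  refine ⟨fun v hv u => covex hv, fun u v h => suff ?_, fun u v τ h h1 h2 a k c h3 h4 h5 h6 h7 h8
    h9 hw => obstruction2 h h1 h2 h3 h4 h5 h6 h7 h8 h9 hw⟩
  rintro i j hE ⟨c, k, r, hR, hU, hr⟩
  exact h i j hE ⟨c, k, r, hR, hr, hU.2.1, hU.2.2⟩

end Pool.Agent.Results.MP_a7460d_ag.Covexillary
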