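import Pool.Agent.H30.KL.IdentMain

/-!
# Standard-graded homogeneity of the Kazhdan–Lusztig ideals `I_{id,v}`

For every `v ∈ S_n` the ideal `I_{id,v}` is homogeneous for the standard grading if and only if the
essential set of `v` lies strictly below the diagonal, if and only if there are no positions
`p < q` with `v(p) < v(q) ≤ p`.
-/

namespace Pool.Agent.Results.MP_a7460d_ag.IdentityCase

open Pool.Agent.H30.KL

theorem result {n : ℕ} (v : Equiv.Perm (Fin n)) :
    List.TFAE [Hom 1 v, ∀ i j, Ess v i j → j < i, ∀ p q, p < q → v p < v q → p < v q] :=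
  ident_iff v

end Pool.Agent.Results.MP_a7460d_ag.IdentityCase
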